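import Pool.Agent.P8H15.FG.Stm2

/-!
# `R_k` is bounded in mean (RMN)
-/

set_option autoImplicit false
set_option linter.all false

namespace Pool.Agent.P8H7.FG

open Finset
open Pool.Agent.P8H15.FG

/-- `g(p) = 2 p^(-1/2) + 1/p` -/
noncomputable def gg (p : ℕ) : ℝ := 2 * (1 / Real.sqrt p) + (1 / Real.sqrt p) ^ 2

lemma gg_nonneg (p : ℕ) : 0 ≤ gg p := by unfold gg; positivity

lemma RR_eq (k : ℕ) : RR k = ∑ t ∈ k.primeFactors.powerset, ∏ p ∈ t, gg p := by
  unfold RR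
  rw [← Finset.prod_one_add]
  apply Finset.prod_congr rfl
  intro p _
  unfold gg
  ring

lemma gg_div_le (p : ℕ) (hp : 1 ≤ p) : gg p / p ≤ 3 * (1 / (p : ℝ) ^ (3 / 2 : ℝ)) := by
  have hp1 : (1 : ℝ) ≤ p := by exact_mod_cast hp
  have hp0 : (0 : ℝ) < p := by linarith
  have hs1 : 1 ≤ Real.sqrt p := by
    rw [Real.one_le_sqrt]; exact hp1
  have hs0 : 0 < Real.sqrt p := by linarith
  have hsq : Real.sqrt p * Real.sqrt p = p := Real.mul_self_sqrt hp0.le
  have hpow : (p : ℝ) ^ (3 / 2 : ℝ) = p * Real.sqrt p := by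
    rw [Real.sqrt_eq_rpow, show (3 / 2 : ℝ) = 1 + 1 / 2 by norm_num, Real.rpow_add hp0, Real.rpow_one]
  rw [hpow]
  unfold gg
  have h1 : (1 / Real.sqrt p) ^ 2 ≤ 1 / Real.sqrt p := by
    have h2 : 1 / Real.sqrt p ≤ 1 := by
      rw [div_le_one hs0]; exact hs1
    have h3 : 0 ≤ 1 / Real.sqrt p := by positivity
    nlinarith
  have h4 : 3 * (1 / ((p : ℝ) * Real.sqrt p)) = (3 * (1 / Real.sqrt p)) / p := by
    field_simp
  rw [h4]
  apply div_le_div_of_nonneg_right _ hp0.le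
  linarith

lemma count_le (K : ℕ) (t : Finset ℕ) (ht : ∀ p ∈ t, p.Prime) :
    (((Icc 1 K).filter (fun k => t ⊆ k.primeFactors)).card : ℝ) ≤ K / ∏ p ∈ t, (p : ℝ) := by
  have h1 : (Icc 1 K).filter (fun k => t ⊆ k.primeFactors) ⊆
      (Ioc 0 K).filter (fun k => (∏ p ∈ t, p) ∣ k) := by
    intro k hk
    rw [Finset.mem_filter] at hk ⊢
    obtain ⟨hk1, hk2⟩ := hk
    rw [Finset.mem_Icc] at hk1
    refine ⟨by rw [Finset.mem_Ioc]; omega, ?_⟩
    apply Finset.prod_primes_dvd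
    · intro p hp; exact (ht p hp).prime
    · intro p hp
      exact Nat.dvd_of_mem_primeFactors (hk2 hp)
  have h2 := Finset.card_le_card h1
  rw [Nat.Ioc_filter_dvd_card_eq_div] at h2
  have h3 : (((Icc 1 K).filter (fun k => t ⊆ k.primeFactors)).card : ℝ) ≤ ((K / ∏ p ∈ t, p : ℕ) : ℝ) := by
    exact_mod_cast h2
  have h4 : ((K / ∏ p ∈ t, p : ℕ) : ℝ) ≤ (K : ℝ) / ((∏ p ∈ t, p : ℕ) : ℝ) := Nat.cast_div_le
  rw [Nat.cast_prod] at h4
  linarith

theorem rmn : S_RMN := by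
  have hsum : Summable (fun n : ℕ => 3 * (1 / (n : ℝ) ^ (3 / 2 : ℝ))) := by
    apply Summable.mul_left
    exact Real.summable_one_div_nat_rpow.mpr (by norm_num)
  refine ⟨Real.exp (∑' n : ℕ, 3 * (1 / (n : ℝ) ^ (3 / 2 : ℝ))), Real.exp_pos _, ?_⟩
  intro K
  set P := (Icc 1 K).filter Nat.Prime with hP
  have hPp : ∀ p ∈ P, p.Prime := fun p hp => (Finset.mem_filter.mp hp).2
  have h1 : ∀ k ∈ Icc 1 K, RR k = ∑ t ∈ P.powerset, if t ⊆ k.primeFactors then ∏ p ∈ t, gg p else 0 := by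
    intro k hk
    rw [Finset.mem_Icc] at hk
    rw [RR_eq, ← Finset.sum_filter]
    apply Finset.sum_congr _ (fun _ _ => rfl)
    ext t
    rw [Finset.mem_filter, Finset.mem_powerset, Finset.mem_powerset]
    constructor
    · intro ht
      refine ⟨?_, ht⟩
      intro p hp
      have hpk := ht hp
      have hpp := Nat.prime_of_mem_primeFactors hpk
      have hle := Nat.le_of_dvd (by omega) (Nat.dvd_of_mem_primeFactors hpk)
      rw [hP, Finset.mem_filter, Finset.mem_Icc]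
      exact ⟨⟨hpp.one_lt.le, by omega⟩, hpp⟩
    · intro ht
      exact ht.2
  rw [Finset.sum_congr rfl h1, Finset.sum_comm]
  have h2 : ∀ t ∈ P.powerset, (∑ k ∈ Icc 1 K, if t ⊆ k.primeFactors then ∏ p ∈ t, gg p else 0) ≤
      K * ∏ p ∈ t, (gg p / p) := by
    intro t ht
    rw [Finset.mem_powerset] at ht
    rw [← Finset.sum_filter, Finset.sum_const, nsmul_eq_mul]
    have h3 := count_le K t (fun p hp => hPp p (ht hp))
    have h4 : 0 ≤ ∏ p ∈ t, gg p := Finset.prod_nonneg (fun p _ => gg_nonneg p)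
    have h5 := mul_le_mul_of_nonneg_right h3 h4
    have h6 : (K : ℝ) / (∏ p ∈ t, (p : ℝ)) * ∏ p ∈ t, gg p = K * ∏ p ∈ t, (gg p / p) := by
      rw [Finset.prod_div_distrib]
      ring
    rw [h6] at h5
    exact h5
  refine (Finset.sum_le_sum h2).trans ?_
  rw [← Finset.mul_sum, ← Finset.prod_one_add, mul_comm]
  apply mul_le_mul_of_nonneg_right _ (Nat.cast_nonneg _)
  have h7 : ∏ p ∈ P, (1 + gg p / p) ≤ ∏ p ∈ P, Real.exp (gg p / p) := by
    apply Finset.prod_le_prod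
    · intro p _
      have := gg_nonneg p
      positivity
    · intro p _
      have := Real.add_one_le_exp (gg p / p)
      linarith
  refine h7.trans ?_
  rw [← Real.exp_sum]
  apply Real.exp_le_exp.mpr
  refine le_trans (Finset.sum_le_sum (fun p hp => gg_div_le p (hPp p hp).one_lt.le)) ?_
  apply hsum.sum_le_tsum
  intro n _
  positivity

end Pool.Agent.P8H7.FG
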